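import Mathlib
import Pool.Agent.V114.SkewSer

/-!
A finite right semidistributive ring with an automorphism of order two whose skew Laurent
series ring is not right semidistributive.
-/

namespace Pool.Agent.Results.MP_d4f5ca_al.SkewLaurentNotSemidistr

open Pool.Agent.V114.SkewSer

/-- The algebra `k^2 ⋉ M_2(k)` (trivial extension): pairs `(d, m)`. -/
@[ext] structure Alg (k : Type) where
  /-- diagonal part -/
  d : Fin 2 → k
  /-- radical part -/
  m : Fin 2 → Fin 2 → k

namespace Alg

variable {k : Type} [Field k]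

instance : Zero (Alg k) := ⟨⟨0, 0⟩⟩
instance : One (Alg k) := ⟨⟨1, 0⟩⟩
instance : Add (Alg k) := ⟨fun a b => ⟨a.d + b.d, a.m + b.m⟩⟩
instance : Neg (Alg k) := ⟨fun a => ⟨-a.d, -a.m⟩⟩
instance : Mul (Alg k) := ⟨fun a b => ⟨a.d * b.d, fun i j => a.d i * b.m i j + a.m i j * b.d j⟩⟩

@[simp] lemma zero_d (i) : (0 : Alg k).d i = 0 := rfl
@[simp] lemma zero_m (i j) : (0 : Alg k).m i j = 0 := rfl
@[simp] lemma one_d (i) : (1 : Alg k).d i = 1 := rfl
@[simp] lemma one_m (i j) : (1 : Alg k).m i j = 0 := rfl
@[simp] lemma add_d (a b : Alg k) (i) : (a + b).d i = a.d i + b.d i := rfl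
@[simp] lemma add_m (a b : Alg k) (i j) : (a + b).m i j = a.m i j + b.m i j := rfl
@[simp] lemma neg_d (a : Alg k) (i) : (-a).d i = -a.d i := rfl
@[simp] lemma neg_m (a : Alg k) (i j) : (-a).m i j = - a.m i j := rfl
@[simp] lemma mul_d (a b : Alg k) (i) : (a * b).d i = a.d i * b.d i := rfl
@[simp] lemma mul_m (a b : Alg k) (i j) : (a * b).m i j = a.d i * b.m i j + a.m i j * b.d j := rfl

instance : Ring (Alg k) := Ring.ofMinimalAxioms
  (fun a b c => by ext <;> simp [add_assoc])
  (fun a => by ext <;> simp)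
  (fun a => by ext <;> simp)
  (fun a b c => by ext <;> simp <;> ring)
  (fun a => by ext <;> simp)
  (fun a => by ext <;> simp)
  (fun a b c => by ext <;> simp <;> ring)
  (fun a b c => by ext <;> simp <;> ring)

/-- the swap automorphism -/
def swap : RingAut (Alg k) where
  toFun a := ⟨fun i => a.d (i + 1), fun i j => a.m (i + 1) (j + 1)⟩
  invFun a := ⟨fun i => a.d (i + 1), fun i j => a.m (i + 1) (j + 1)⟩
  left_inv a := by
    ext i j
    · simp only [add_assoc]; fin_cases i <;> rfl
    · simp only [add_assoc]; fin_cases i <;> fin_cases j <;> rfl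
  right_inv a := by
    ext i j
    · simp only [add_assoc]; fin_cases i <;> rfl
    · simp only [add_assoc]; fin_cases i <;> fin_cases j <;> rfl
  map_mul' a b := by ext <;> simp
  map_add' a b := by ext <;> simp

@[simp] lemma swap_d (a : Alg k) (i) : (swap a).d i = a.d (i + 1) := rfl
@[simp] lemma swap_m (a : Alg k) (i j) : (swap a).m i j = a.m (i + 1) (j + 1) := rfl

/-- diagonal radical element -/
def E (k : Type) [Field k] : Alg k := ⟨0, fun i j => if i = j then 1 else 0⟩
/-- off-diagonal radical element -/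
def J (k : Type) [Field k] : Alg k := ⟨0, fun i j => if i = j then 0 else 1⟩

lemma swap_E : swap (E k) = E k := by
  ext i j
  · rfl
  · fin_cases i <;> fin_cases j <;> rfl

lemma swap_J : swap (J k) = J k := by
  ext i j
  · rfl
  · fin_cases i <;> fin_cases j <;> rfl

lemma zpow_fix (a : Alg k) (h : swap a = a) (n : ℤ) : ((swap : RingAut (Alg k)) ^ n) a = a := by
  have hmem : (swap : RingAut (Alg k)) ∈ (MulAction.stabilizer (RingAut (Alg k)) a) := by
    rw [MulAction.mem_stabilizer_iff]
    exact h
  have := (MulAction.stabilizer (RingAut (Alg k)) a).zpow_mem hmem n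
  rw [MulAction.mem_stabilizer_iff] at this
  exact this

end Alg

open Alg

variable {k : Type} [Field k]

/-- The skew Laurent series ring. -/
abbrev B (k : Type) [Field k] := Ser (Alg k) (swap : RingAut (Alg k))

/-- central square-zero element -/
def eh (k : Type) [Field k] : B k := mono _ 0 (E k)
/-- central square-zero element -/
def om (k : Type) [Field k] : B k := mono _ 1 (J k)

lemma eh_mul_coeff (b : B k) (n : ℤ) : (eh k * b).coeff n = E k * b.coeff n := by
  rw [eh, mono_mul_coeff]; simp

lemma mul_eh_coeff (b : B k) (n : ℤ) : (b * eh k).coeff n = b.coeff n * E k := by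
  rw [eh, mul_mono_coeff, zpow_fix _ swap_E]; simp

lemma om_mul_coeff (b : B k) (n : ℤ) : (om k * b).coeff n = J k * swap (b.coeff (n - 1)) := by
  rw [om, mono_mul_coeff, zpow_one]

lemma mul_om_coeff (b : B k) (n : ℤ) : (b * om k).coeff n = b.coeff (n - 1) * J k := by
  rw [om, mul_mono_coeff, zpow_fix _ swap_J]

lemma eh_comm (b : B k) : eh k * b = b * eh k := by
  ext n
  · rw [eh_mul_coeff, mul_eh_coeff]
    simp [E]
  · rename_i i j
    rw [eh_mul_coeff, mul_eh_coeff]
    fin_cases i <;> fin_cases j <;> simp [E]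

lemma om_comm (b : B k) : om k * b = b * om k := by
  ext n
  · rw [om_mul_coeff, mul_om_coeff]
    simp [J]
  · rename_i i j
    rw [om_mul_coeff, mul_om_coeff]
    fin_cases i <;> fin_cases j <;> simp [J]

lemma d_eq_zero_iff (a : Alg k) : (∀ i, a.d i = 0) ↔ a * a = 0 := by
  constructor
  · intro h
    ext i j
    · simp [h]
    · simp [h]
  · intro h i
    have := congrArg (fun x : Alg k => x.d i) h
    simpa using this

/-- An element with zero diagonal part squares to zero. -/
lemma sq_zero (f : B k) (h : ∀ n i, (f.coeff n).d i = 0) : f * f = 0 := by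
  have key : ∀ n l : ℤ, f.coeff l * ((swap : RingAut (Alg k)) ^ l) (f.coeff (n - l)) = 0 := by
    intro n l
    have h1 : ∀ i, (((swap : RingAut (Alg k)) ^ l) (f.coeff (n - l))).d i = 0 := by
      rw [d_eq_zero_iff, ← map_mul, (d_eq_zero_iff _).1 (h _), map_zero]
    ext i j
    · simp [h]
    · simp [h, h1]
  have h2 : ∀ n, (f * f).coeff n = 0 := by
    intro n
    rw [mul_coeff, mulCoeff]
    simp only [key, finsum_zero]
  ext n i j
  · rw [h2]; rfl
  · rw [h2]; rfl

/-- The radical part of products. -/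
lemma eh_m (b : B k) (n : ℤ) (i j : Fin 2) :
    ((eh k * b).coeff n).m i j = if i = j then (b.coeff n).d i else 0 := by
  rw [eh_mul_coeff]
  fin_cases i <;> fin_cases j <;> simp [E]

lemma om_m (b : B k) (n : ℤ) (i j : Fin 2) :
    ((om k * b).coeff n).m i j = if i = j then 0 else (b.coeff (n - 1)).d i := by
  rw [om_mul_coeff]
  fin_cases i <;> fin_cases j <;> simp [J]

lemma eh_d (b : B k) (n : ℤ) (i : Fin 2) : ((eh k * b).coeff n).d i = 0 := by
  rw [eh_mul_coeff]; simp [E]

lemma om_d (b : B k) (n : ℤ) (i : Fin 2) : ((om k * b).coeff n).d i = 0 := by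
  rw [om_mul_coeff]; simp [J]

lemma eh_zero_of_d (b : B k) (h : ∀ n i, (b.coeff n).d i = 0) : eh k * b = 0 := by
  ext n i j
  · exact eh_d b n i
  · rw [eh_m, h]; simp

lemma om_zero_of_d (b : B k) (h : ∀ n i, (b.coeff n).d i = 0) : om k * b = 0 := by
  ext n i j
  · exact om_d b n i
  · rw [om_m, h]; simp

/-- `(ε + ω) b = ε c` forces the diagonal part of `b` to vanish. -/
lemma cancel_eh (b c : B k) (h : (eh k + om k) * b = eh k * c) :
    ∀ n i, (b.coeff n).d i = 0 := by
  intro n i
  have h1 := congrArg (fun x : B k => (x.coeff (n + 1)).m i (i + 1)) h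
  rw [add_mul] at h1
  simp only [add_coeff', add_m, eh_m, om_m] at h1
  have h2 : i ≠ i + 1 := by fin_cases i <;> decide
  rw [if_neg h2, if_neg h2, if_neg h2, zero_add, add_sub_cancel_right] at h1
  exact h1

/-- `(ε + ω) b = ω c` forces the diagonal part of `b` to vanish. -/
lemma cancel_om (b c : B k) (h : (eh k + om k) * b = om k * c) :
    ∀ n i, (b.coeff n).d i = 0 := by
  intro n i
  have h1 := congrArg (fun x : B k => (x.coeff n).m i i) h
  rw [add_mul] at h1
  simpa only [add_coeff', add_m, eh_m, om_m, if_true, add_zero] using h1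

/-- No right ideal of `B` that contains a nonzero idempotent is distributive. -/
lemma not_distributive (M : Submodule (B k)ᵐᵒᵖ (B k)) (f : B k) (hf : f ∈ M) (hff : f * f = f)
    (hf0 : f ≠ 0) : ¬ IsDistributiveModule (B k)ᵐᵒᵖ M := by
  intro hdist
  have mem_mul : ∀ b : B k, f * b ∈ M := fun b => M.smul_mem (MulOpposite.op b) hf
  set u : M := ⟨f * (eh k + om k), mem_mul _⟩ with hu
  set v : M := ⟨f * eh k, mem_mul _⟩ with hv
  set w : M := ⟨f * om k, mem_mul _⟩ with hw
  have huvw : u = v + w := by
    apply Subtype.ext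
    simp only [hu, hv, hw, Submodule.coe_add, mul_add]
  have h1 := hdist (Submodule.span _ {u}) (Submodule.span _ {v}) (Submodule.span _ {w})
  have h2 : u ∈ Submodule.span (B k)ᵐᵒᵖ {u} ⊓
      (Submodule.span (B k)ᵐᵒᵖ {v} ⊔ Submodule.span (B k)ᵐᵒᵖ {w}) := by
    refine ⟨Submodule.mem_span_singleton_self _, ?_⟩
    rw [huvw]
    exact Submodule.add_mem_sup (Submodule.mem_span_singleton_self _)
      (Submodule.mem_span_singleton_self _)
  rw [h1, Submodule.mem_sup] at h2
  obtain ⟨y, ⟨hy1, hy2⟩, z, ⟨hz1, hz2⟩, hyz⟩ := h2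
  have hy0 : y = 0 := by
    obtain ⟨b, hb⟩ := Submodule.mem_span_singleton.1 hy1
    obtain ⟨c, hc⟩ := Submodule.mem_span_singleton.1 hy2
    have e1 : (y : B k) = (eh k + om k) * (f * b.unop) := by
      rw [← hb]
      change f * (eh k + om k) * b.unop = _
      rw [← mul_assoc, add_mul (eh k), eh_comm, om_comm, ← mul_add]
    have e2 : (y : B k) = eh k * (f * c.unop) := by
      rw [← hc]
      change f * eh k * c.unop = _
      rw [← mul_assoc, eh_comm]
    have e3 := cancel_eh _ _ (e1.symm.trans e2)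
    apply Subtype.ext
    rw [e1, add_mul, eh_zero_of_d _ e3, om_zero_of_d _ e3]
    simp
  have hz0 : z = 0 := by
    obtain ⟨b, hb⟩ := Submodule.mem_span_singleton.1 hz1
    obtain ⟨c, hc⟩ := Submodule.mem_span_singleton.1 hz2
    have e1 : (z : B k) = (eh k + om k) * (f * b.unop) := by
      rw [← hb]
      change f * (eh k + om k) * b.unop = _
      rw [← mul_assoc, add_mul (eh k), eh_comm, om_comm, ← mul_add]
    have e2 : (z : B k) = om k * (f * c.unop) := by
      rw [← hc]
      change f * om k * c.unop = _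
      rw [← mul_assoc, om_comm]
    have e3 := cancel_om _ _ (e1.symm.trans e2)
    apply Subtype.ext
    rw [e1, add_mul, eh_zero_of_d _ e3, om_zero_of_d _ e3]
    simp
  have hu0 : u = 0 := by rw [← hyz, hy0, hz0, add_zero]
  have e1 : (eh k + om k) * f = eh k * 0 := by
    have := congrArg (Subtype.val) hu0
    simp only [hu, ZeroMemClass.coe_zero] at this
    rw [mul_zero, ← this, add_mul, mul_add, eh_comm, om_comm]
  have e2 := cancel_eh _ _ e1
  exact hf0 (hff ▸ sq_zero f e2)

/-- `B` is not right semidistributive. -/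
lemma B_not_semidistributive (k : Type) [Field k] : ¬ IsRightSemidistributive (B k) := by
  rintro ⟨S, hind, htop, hS⟩
  -- some member is nonzero
  have hne : ∃ M ∈ S, M ≠ ⊥ := by
    by_contra hcon
    push Not at hcon
    have : sSup S = ⊥ := by
      rw [sSup_eq_bot]
      exact hcon
    rw [this] at htop
    have h1 : (1 : B k) ∈ (⊥ : Submodule (B k)ᵐᵒᵖ (B k)) := by rw [htop]; trivial
    rw [Submodule.mem_bot] at h1
    have := congrArg (fun x : B k => (x.coeff 0).d 0) h1
    simp [one_coeff] at this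
  obtain ⟨M, hM, hM0⟩ := hne
  have hdisj := hind hM
  have hsup : M ⊔ sSup (S \ {M}) = ⊤ := by
    rw [← sSup_insert, Set.insert_sdiff_singleton, Set.insert_eq_of_mem hM, htop]
  have h1 : (1 : B k) ∈ M ⊔ sSup (S \ {M}) := by rw [hsup]; trivial
  obtain ⟨f, hf, g, hg, hfg⟩ := Submodule.mem_sup.1 h1
  have key : ∀ m ∈ M, f * m = m := by
    intro m hm
    have e1 : f * m + g * m = m := by rw [← add_mul, hfg, one_mul]
    have e2 : g * m = m - f * m := eq_sub_of_add_eq' e1
    have e3 : g * m ∈ M := by
      rw [e2]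
      exact M.sub_mem hm (M.smul_mem (MulOpposite.op m) hf)
    have e4 : g * m ∈ sSup (S \ {M}) := (sSup (S \ {M})).smul_mem (MulOpposite.op m) hg
    have e5 : g * m = 0 := by
      have := (Submodule.disjoint_def.1 hdisj) _ e3 e4
      exact this
    rw [e5, add_zero] at e1
    exact e1
  refine not_distributive M f hf (key f hf) ?_ (hS M hM)
  rintro rfl
  apply hM0
  rw [Submodule.eq_bot_iff]
  intro m hm
  rw [← key m hm, zero_mul]

/-- The right ideal `e_i A`. -/
def eA (k : Type) [Field k] (i : Fin 2) : Submodule (Alg k)ᵐᵒᵖ (Alg k) where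
  carrier := {a | ∀ j, j ≠ i → a.d j = 0 ∧ ∀ l, a.m j l = 0}
  add_mem' := by
    intro a b ha hb j hj
    refine ⟨by simp [(ha j hj).1, (hb j hj).1], fun l => by simp [(ha j hj).2, (hb j hj).2]⟩
  zero_mem' := by intro j _; simp
  smul_mem' := by
    intro c a ha j hj
    change (a * c.unop).d j = 0 ∧ ∀ l, (a * c.unop).m j l = 0
    refine ⟨by simp [(ha j hj).1], fun l => by simp [(ha j hj).1, (ha j hj).2]⟩

lemma eA_distributive (i : Fin 2) : IsDistributiveModule (Alg k)ᵐᵒᵖ (eA k i) := by
  intro F G H
  apply le_antisymm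
  swap
  · exact le_inf_sup
  rintro z ⟨hzF, hzGH⟩
  obtain ⟨g, hg, h, hh, hgh⟩ := Submodule.mem_sup.1 hzGH
  -- a submodule containing an element with nonzero diagonal part is everything
  have big : ∀ (N : Submodule (Alg k)ᵐᵒᵖ (eA k i)) (x : eA k i), x ∈ N → (x : Alg k).d i ≠ 0 →
      ∀ y : eA k i, y ∈ N := by
    intro N x hx hxd y
    have : y = MulOpposite.op (⟨fun _ => (y : Alg k).d i * ((x : Alg k).d i)⁻¹,
        fun a b => if a = i then ((x : Alg k).d i)⁻¹ * ((y : Alg k).m i b -
          (x : Alg k).m i b * ((y : Alg k).d i * ((x : Alg k).d i)⁻¹)) else 0⟩ : Alg k) • x := by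
      apply Subtype.ext
      change (y : Alg k) = (x : Alg k) * _
      ext a b
      · by_cases ha : a = i
        · subst ha; simp; field_simp
        · rw [(y.2 a ha).1]; simp [(x.2 a ha).1]
      · by_cases ha : a = i
        · subst ha; simp; field_simp; ring
        · rw [(y.2 a ha).2]; simp [(x.2 a ha).1, (x.2 a ha).2]
    rw [this]
    exact N.smul_mem _ hx
  -- scaling and projecting to a component
  have comp : ∀ (N : Submodule (Alg k)ᵐᵒᵖ (eA k i)) (x : eA k i), x ∈ N → (x : Alg k).d i = 0 →
      ∀ l, (x : Alg k).m i l ≠ 0 → ∀ y : eA k i, (y : Alg k).d i = 0 →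
      (∀ l', l' ≠ l → (y : Alg k).m i l' = 0) → y ∈ N := by
    intro N x hx hxd l hl y hyd hyl
    have : y = MulOpposite.op (⟨fun a => if a = l then ((x : Alg k).m i l)⁻¹ * (y : Alg k).m i l
        else 0, 0⟩ : Alg k) • x := by
      apply Subtype.ext
      change (y : Alg k) = (x : Alg k) * _
      ext a b
      · by_cases ha : a = i
        · subst ha; rw [hyd]; simp [hxd]
        · rw [(y.2 a ha).1]; simp [(x.2 a ha).1]
      · by_cases ha : a = i
        · subst ha
          by_cases hb : b = l
          · subst hb; simp; field_simp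
          · rw [hyl b hb]; simp [hb]
        · rw [(y.2 a ha).2]; simp [(x.2 a ha).2]
    rw [this]
    exact N.smul_mem _ hx
  by_cases hgd : (g : Alg k).d i = 0
  swap
  · exact Submodule.mem_sup_left ⟨hzF, big G g hg hgd z⟩
  by_cases hhd : (h : Alg k).d i = 0
  swap
  · exact Submodule.mem_sup_right ⟨hzF, big H h hh hhd z⟩
  have hzd : (z : Alg k).d i = 0 := by
    rw [← hgh]; simp [hgd, hhd]
  have hzm : ∀ l, (z : Alg k).m i l = (g : Alg k).m i l + (h : Alg k).m i l := by
    intro l; rw [← hgh]; simp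
  -- components of z
  have cz : ∀ l : Fin 2, ∃ y : eA k i, (y : Alg k).d i = 0 ∧ (y : Alg k).m i l = (z : Alg k).m i l ∧
      (∀ l', l' ≠ l → (y : Alg k).m i l' = 0) := by
    intro l
    refine ⟨⟨⟨0, fun a b => if a = i ∧ b = l then (z : Alg k).m i l else 0⟩, ?_⟩, ?_, ?_, ?_⟩
    · intro j hj
      refine ⟨rfl, fun l => ?_⟩
      simp [hj]
    · rfl
    · simp
    · intro l' hl'; simp [hl']
  have main : ∀ l : Fin 2, ∀ y : eA k i, (y : Alg k).d i = 0 →
      (y : Alg k).m i l = (z : Alg k).m i l →
      (∀ l', l' ≠ l → (y : Alg k).m i l' = 0) → y ∈ (F ⊓ G) ⊔ (F ⊓ H) := by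
    intro l y hyd hyz hyl
    by_cases hz0 : (z : Alg k).m i l = 0
    · have : y = 0 := by
        apply Subtype.ext
        ext a b
        · by_cases ha : a = i
          · subst ha; rw [hyd]; rfl
          · rw [(y.2 a ha).1]; rfl
        · by_cases ha : a = i
          · subst ha
            by_cases hb : b = l
            · subst hb; rw [hyz, hz0]; rfl
            · rw [hyl b hb]; rfl
          · rw [(y.2 a ha).2]; rfl
      rw [this]
      exact Submodule.zero_mem _
    · have hyF : y ∈ F := comp F z hzF hzd l hz0 y hyd hyl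
      by_cases hg0 : (g : Alg k).m i l = 0
      · have hh0 : (h : Alg k).m i l ≠ 0 := by
          intro hc
          apply hz0
          rw [hzm, hg0, hc, add_zero]
        exact Submodule.mem_sup_right ⟨hyF, comp H h hh hhd l hh0 y hyd hyl⟩
      · exact Submodule.mem_sup_left ⟨hyF, comp G g hg hgd l hg0 y hyd hyl⟩
  obtain ⟨y0, a1, a2, a3⟩ := cz 0
  obtain ⟨y1, b1, b2, b3⟩ := cz 1
  have hsum : z = y0 + y1 := by
    apply Subtype.ext
    ext a b
    · by_cases ha : a = i
      · subst ha; simp [hzd, a1, b1]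
      · rw [(z.2 a ha).1]; simp [(y0.2 a ha).1, (y1.2 a ha).1]
    · by_cases ha : a = i
      · subst ha
        fin_cases b
        · simp [a2, b3 0 (by decide)]
        · simp [b2, a3 1 (by decide)]
      · rw [(z.2 a ha).2]; simp [(y0.2 a ha).2, (y1.2 a ha).2]
  rw [hsum]
  exact Submodule.add_mem _ (main 0 y0 a1 a2 a3) (main 1 y1 b1 b2 b3)

lemma Alg_semidistributive (k : Type) [Field k] : IsRightSemidistributive (Alg k) := by
  refine ⟨{eA k 0, eA k 1}, ?_, ?_, ?_⟩
  · have hne : eA k 0 ≠ eA k 1 := by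
      intro h
      have h1 : (⟨fun i => if i = 0 then 1 else 0, 0⟩ : Alg k) ∈ eA k 0 := by
        intro j hj; simp [hj]
      rw [h] at h1
      have := (h1 0 (by decide)).1
      simp at this
    rw [sSupIndep_pair hne, Submodule.disjoint_def]
    intro x hx0 hx1
    ext a b
    · fin_cases a
      · exact (hx1 0 (by decide)).1
      · exact (hx0 1 (by decide)).1
    · fin_cases a
      · exact (hx1 0 (by decide)).2 b
      · exact (hx0 1 (by decide)).2 b
  · rw [sSup_pair, eq_top_iff]
    intro x _
    have : x = (⟨fun i => if i = 0 then x.d i else 0, fun i j => if i = 0 then x.m i j else 0⟩ :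
        Alg k) + ⟨fun i => if i = 0 then 0 else x.d i, fun i j => if i = 0 then 0 else x.m i j⟩ := by
      ext a b
      · by_cases ha : a = 0 <;> simp [ha]
      · by_cases ha : a = 0 <;> simp [ha]
    rw [this]
    apply Submodule.add_mem_sup
    · intro j hj; simp [hj]
    · intro j hj
      have : j = 0 := by omega
      simp [this]
  · rintro N (rfl | rfl)
    · exact eA_distributive 0
    · exact eA_distributive 1

instance : Finite (Alg (ZMod 2)) := by
  have : Function.Injective (fun a : Alg (ZMod 2) => (a.d, a.m)) := by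
    intro a b h
    ext i j
    · exact congrFun (congrArg Prod.fst h) i
    · exact congrFun (congrFun (congrArg Prod.snd h) i) j
  exact Finite.of_injective _ this

/-- **Q1 has a negative answer**, even for finite rings. -/
theorem result : ∃ (A : Type) (_ : Ring A) (φ : RingAut A), Finite A ∧ IsArtinian Aᵐᵒᵖ A ∧
    IsRightSemidistributive A ∧ ¬ IsRightSemidistributive (Ser A φ) := by
  refine ⟨Alg (ZMod 2), inferInstance, swap, inferInstance, ?_, Alg_semidistributive _,
    B_not_semidistributive _⟩
  exact isArtinian_of_finite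

end Pool.Agent.Results.MP_d4f5ca_al.SkewLaurentNotSemidistr
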